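import Mathlib

/-!
# Wreath products with a group of order two which are not derived subgroups
-/

set_option autoImplicit false

namespace Pool.Agent.R571.IG

universe u v

/-- A group is *integrable* if it is isomorphic to the derived subgroup of some group. -/
def Integrable (G : Type v) [Group G] : Prop :=
  ∃ (H : Type u) (_ : Group H), Nonempty (commutator H ≃* G)

/-- Perfect, centerless, directly indecomposable and nontrivial groups. -/
structure Good (K : Type v) [Group K] : Prop where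
  nt : ∃ k : K, k ≠ 1
  center : ∀ z : K, (∀ k, z * k = k * z) → z = 1
  indec : ∀ X Y : Subgroup K, (∀ x ∈ X, ∀ y ∈ Y, x * y = y * x) →
    (∀ k, ∃ x ∈ X, ∃ y ∈ Y, k = x * y) → (∀ k, k ∈ X → k ∈ Y → k = 1) →
    (∀ x ∈ X, x = 1) ∨ (∀ y ∈ Y, y = 1)
  perfect : commutator K = ⊤

theorem map_comm {A : Type u} {B : Type v} [Group A] [Group B] (f : A →* B)
    (hA : commutator A = ⊤) (a : A) : f a ∈ commutator B := by
  have h1 : a ∈ commutator A := by rw [hA]; exact Subgroup.mem_top _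
  have h2 : f a ∈ (commutator A).map f := ⟨a, h1, rfl⟩
  rw [commutator_def, Subgroup.map_commutator] at h2
  exact Subgroup.commutator_mono le_top le_top h2

section Aut

variable {K : Type v} [Group K]

theorem claim (hK : Good K) (ψ : K × K ≃* K × K) :
    (∀ k, (ψ (k, 1)).2 = 1) ∨ (∀ k, (ψ (k, 1)).1 = 1) := by
  let X : Subgroup K := ((MonoidHom.snd K K).comp (ψ.toMonoidHom.comp (MonoidHom.inl K K))).ker
  let Y : Subgroup K := ((MonoidHom.fst K K).comp (ψ.toMonoidHom.comp (MonoidHom.inl K K))).ker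
  have hX : ∀ k, k ∈ X ↔ (ψ (k, 1)).2 = 1 := fun k => Iff.rfl
  have hY : ∀ k, k ∈ Y ↔ (ψ (k, 1)).1 = 1 := fun k => Iff.rfl
  have h1 : ∀ x ∈ X, ∀ y ∈ Y, x * y = y * x := by
    intro x hx y hy
    rw [hX] at hx
    rw [hY] at hy
    have e : ψ ((x, 1) * (y, 1)) = ψ ((y, 1) * (x, 1)) := by
      rw [map_mul, map_mul]
      apply Prod.ext
      · rw [Prod.fst_mul, Prod.fst_mul, hy, mul_one, one_mul]
      · rw [Prod.snd_mul, Prod.snd_mul, hx, mul_one, one_mul]
    have e2 := congrArg Prod.fst (ψ.injective e)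
    simpa using e2
  have h2 : ∀ k, ∃ x ∈ X, ∃ y ∈ Y, k = x * y := by
    intro k
    set U : K × K := ((ψ (k, 1)).1, 1) with hU
    set V : K × K := (1, (ψ (k, 1)).2) with hV
    have hUV : U * V = ψ (k, 1) := by
      apply Prod.ext <;> simp [hU, hV]
    set P := ψ.symm U with hP
    set S := ψ.symm V with hS
    have hPS : P * S = (k, 1) := by
      rw [hP, hS, ← map_mul, hUV, MulEquiv.symm_apply_apply]
    have hPS2 : P.2 * S.2 = 1 := by
      have := congrArg Prod.snd hPS
      simpa using this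
    have hc : ∀ t, P.2 * t = t * P.2 := by
      intro t
      set M : K × K := ((ψ (1, t)).1, 1) with hM
      set N : K × K := (1, (ψ (1, t)).2) with hN
      have hMN : M * N = ψ (1, t) := by
        apply Prod.ext <;> simp [hM, hN]
      have hMN' : ψ.symm M * ψ.symm N = (1, t) := by
        rw [← map_mul, hMN, MulEquiv.symm_apply_apply]
      have ht : (ψ.symm M).2 * (ψ.symm N).2 = t := by
        have := congrArg Prod.snd hMN'
        simpa using this
      have c1 : P * ψ.symm N = ψ.symm N * P := by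
        rw [hP, ← map_mul, ← map_mul]
        congr 1
        apply Prod.ext <;> simp [hU, hN]
      have c2 : S * ψ.symm M = ψ.symm M * S := by
        rw [hS, ← map_mul, ← map_mul]
        congr 1
        apply Prod.ext <;> simp [hV, hM]
      have c1' : P.2 * (ψ.symm N).2 = (ψ.symm N).2 * P.2 := congrArg Prod.snd c1
      have c2' : S.2 * (ψ.symm M).2 = (ψ.symm M).2 * S.2 := congrArg Prod.snd c2
      have hS2 : S.2 = (P.2)⁻¹ := (inv_eq_of_mul_eq_one_right hPS2).symm
      have c3 : Commute (P.2) (ψ.symm M).2 := by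
        have : Commute (P.2)⁻¹ (ψ.symm M).2 := by rw [← hS2]; exact c2'
        simpa using this.inv_left
      rw [← ht]
      exact (c3.mul_right c1').eq
    have hP1 : P.2 = 1 := hK.center _ hc
    have hS1 : S.2 = 1 := by rw [hP1, one_mul] at hPS2; exact hPS2
    have hP' : P = (P.1, 1) := Prod.ext rfl hP1
    have hS' : S = (S.1, 1) := Prod.ext rfl hS1
    refine ⟨P.1, ?_, S.1, ?_, ?_⟩
    · rw [hX, ← hP', hP, MulEquiv.apply_symm_apply]
    · rw [hY, ← hS', hS, MulEquiv.apply_symm_apply]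
    · have := congrArg Prod.fst hPS
      simpa using this.symm
  have h3 : ∀ k, k ∈ X → k ∈ Y → k = 1 := by
    intro k hx hy
    rw [hX] at hx
    rw [hY] at hy
    have : ψ (k, 1) = 1 := Prod.ext hy hx
    have h := (map_eq_one_iff ψ ψ.injective).1 this
    exact congrArg Prod.fst h
  rcases hK.indec X Y h1 h2 h3 with h | h
  · right
    intro k
    obtain ⟨x, hx, y, hy, rfl⟩ := h2 k
    rw [h x hx, one_mul, ← hY]
    exact hy
  · left
    intro k
    obtain ⟨x, hx, y, hy, rfl⟩ := h2 k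
    rw [h y hy, mul_one, ← hX]
    exact hx

/-- Automorphisms of `K × K` permute the two factors. -/
theorem claim2 (hK : Good K) (ψ : K × K ≃* K × K) :
    ((∀ k, (ψ (k, 1)).2 = 1) ∧ (∀ k, (ψ (1, k)).1 = 1)) ∨
    ((∀ k, (ψ (k, 1)).1 = 1) ∧ (∀ k, (ψ (1, k)).2 = 1)) := by
  have h1 := claim hK ψ
  have h2 := claim hK ((MulEquiv.prodComm : K × K ≃* K × K).trans ψ)
  have h2' : (∀ k, (ψ (1, k)).2 = 1) ∨ (∀ k, (ψ (1, k)).1 = 1) := h2
  obtain ⟨k0, hk0⟩ := hK.nt
  have hdec : ∀ a b : K, ψ (a, b) = ψ (a, 1) * ψ (1, b) := by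
    intro a b
    rw [← map_mul]
    simp
  rcases h1 with h1 | h1 <;> rcases h2' with h2 | h2
  · exfalso
    apply hk0
    obtain ⟨⟨a, b⟩, hab⟩ := ψ.surjective (1, k0)
    rw [hdec] at hab
    have := congrArg Prod.snd hab
    rw [Prod.snd_mul, h1, h2] at this
    simpa using this.symm
  · exact Or.inl ⟨h1, h2⟩
  · exact Or.inr ⟨h1, h2⟩
  · exfalso
    apply hk0
    obtain ⟨⟨a, b⟩, hab⟩ := ψ.surjective (k0, 1)
    rw [hdec] at hab
    have := congrArg Prod.fst hab
    rw [Prod.fst_mul, h1, h2] at this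
    simpa using this.symm

end Aut

/-- `G` contains `K × K` and an element `c` which swaps the two factors and generates `G` together
with them. -/
structure WL {K : Type v} [Group K] {G : Type v} [Group G] (ι : K × K →* G) (c : G) : Prop where
  inj : Function.Injective ι
  swap : ∀ a b, c * ι (a, b) * c⁻¹ = ι (b, a)
  cover : ∀ g, ∃ x, g = ι x ∨ g = ι x * c

section WLs

variable {K : Type v} [Group K] {G : Type v} [Group G] {ι : K × K →* G} {c : G}

theorem WL.swap' (h : WL ι c) (x : K × K) : c * ι x = ι (x.2, x.1) * c := by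
  rw [← h.swap x.1 x.2]
  simp

theorem WL.comm_le (h : WL ι c) : commutator G ≤ ι.range := by
  rw [commutator_def, Subgroup.commutator_le]
  intro g1 _ g2 _
  obtain ⟨x, hx⟩ := h.cover g1
  obtain ⟨y, hy⟩ := h.cover g2
  have hs : ∀ z : K × K, c * ι z * c⁻¹ = ι (z.2, z.1) := fun z => h.swap z.1 z.2
  rw [commutatorElement_def]
  rcases hx with rfl | rfl <;> rcases hy with rfl | rfl
  · exact ⟨x * y * x⁻¹ * y⁻¹, by simp⟩
  · refine ⟨x * y * (x⁻¹.2, x⁻¹.1) * y⁻¹, ?_⟩
    rw [map_mul, map_mul, map_mul, ← hs x⁻¹, map_inv, map_inv]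
    group
  · refine ⟨x * (y.2, y.1) * x⁻¹ * y⁻¹, ?_⟩
    rw [map_mul, map_mul, map_mul, ← hs y, map_inv, map_inv]
    group
  · refine ⟨x * ((y * x⁻¹).2, (y * x⁻¹).1) * y⁻¹, ?_⟩
    rw [map_mul, map_mul, ← hs (y * x⁻¹), map_mul, map_inv, map_inv]
    group

theorem WL.le_comm (h : WL ι c) (hK : Good K) (x : K × K) : ι x ∈ commutator G := by
  have e : ι x = ι (x.1, 1) * ι (1, x.2) := by
    rw [← map_mul]
    simp
  rw [e]
  exact mul_mem (map_comm (ι.comp (MonoidHom.inl K K)) hK.perfect x.1)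
    (map_comm (ι.comp (MonoidHom.inr K K)) hK.perfect x.2)

theorem WL.aut (h : WL ι c) (hK : Good K) (σ : MulAut G) (x : K × K) : ∃ y, σ (ι x) = ι y := by
  have h1 : σ (ι x) ∈ commutator G := by
    have h2 : σ (ι x) ∈ (commutator G).map σ.toMonoidHom := ⟨ι x, h.le_comm hK x, rfl⟩
    rw [commutator_def, Subgroup.map_commutator] at h2
    exact Subgroup.commutator_mono le_top le_top h2
  obtain ⟨y, hy⟩ := h.comm_le h1
  exact ⟨y, hy.symm⟩

/-- `σ` preserves the two factors -/
def E0 (ι : K × K →* G) (σ : MulAut G) : Prop :=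
  (∀ k, ∃ k', σ (ι (k, 1)) = ι (k', 1)) ∧ (∀ k, ∃ k', σ (ι (1, k)) = ι (1, k'))

/-- `σ` swaps the two factors -/
def E1 (ι : K × K →* G) (σ : MulAut G) : Prop :=
  (∀ k, ∃ k', σ (ι (k, 1)) = ι (1, k')) ∧ (∀ k, ∃ k', σ (ι (1, k)) = ι (k', 1))

theorem WL.parity (h : WL ι c) (hK : Good K) (σ : MulAut G) : E0 ι σ ∨ E1 ι σ := by
  choose f hf using h.aut hK σ
  choose g hg using h.aut hK σ⁻¹
  have hfg : ∀ x, f (g x) = x := by
    intro x
    apply h.inj
    rw [← hf, ← hg]
    exact MulAut.apply_inv_self G σ _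
  have hgf : ∀ x, g (f x) = x := by
    intro x
    apply h.inj
    rw [← hg, ← hf]
    exact MulAut.inv_apply_self G σ _
  let ψ : K × K ≃* K × K :=
    { toFun := f
      invFun := g
      left_inv := hgf
      right_inv := hfg
      map_mul' := by
        intro x y
        apply h.inj
        rw [← hf, map_mul, map_mul, map_mul, hf, hf] }
  have hψ : ∀ x, σ (ι x) = ι (ψ x) := hf
  rcases claim2 hK ψ with ⟨h1, h2⟩ | ⟨h1, h2⟩
  · left
    refine ⟨fun k => ⟨(ψ (k, 1)).1, ?_⟩, fun k => ⟨(ψ (1, k)).2, ?_⟩⟩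
    · rw [hψ]
      congr 1
      exact Prod.ext rfl (h1 k)
    · rw [hψ]
      congr 1
      exact Prod.ext (h2 k) rfl
  · right
    refine ⟨fun k => ⟨(ψ (k, 1)).2, ?_⟩, fun k => ⟨(ψ (1, k)).1, ?_⟩⟩
    · rw [hψ]
      congr 1
      exact Prod.ext (h1 k) rfl
    · rw [hψ]
      congr 1
      exact Prod.ext rfl (h2 k)

theorem WL.not_both (h : WL ι c) (hK : Good K) (σ : MulAut G) (h0 : E0 ι σ) (h1 : E1 ι σ) :
    False := by
  obtain ⟨k, hk⟩ := hK.nt
  apply hk
  obtain ⟨a, ha⟩ := h0.1 k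
  obtain ⟨b, hb⟩ := h1.1 k
  have e := h.inj (ha.symm.trans hb)
  have ea : a = 1 := congrArg Prod.fst e
  rw [ea] at ha
  have e1 : ι (1, 1) = 1 := map_one ι
  rw [e1] at ha
  have h2 := (map_eq_one_iff σ σ.injective).1 ha
  have h3 := (map_eq_one_iff ι h.inj).1 h2
  exact congrArg Prod.fst h3

open Classical in
/-- the action on the two factors -/
noncomputable def WL.chi (h : WL ι c) (hK : Good K) : MulAut G →* ℤˣ :=
  MonoidHom.mk' (fun σ => if E0 ι σ then 1 else -1) (by
    intro σ τ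
    have hn : ∀ σ, E1 ι σ → ¬ E0 ι σ := fun σ h1 h0 => h.not_both hK σ h0 h1
    rcases h.parity hK σ with hs | hs <;> rcases h.parity hK τ with ht | ht
    · have : E0 ι (σ * τ) := by
        refine ⟨fun k => ?_, fun k => ?_⟩
        · obtain ⟨a, ha⟩ := ht.1 k
          obtain ⟨b, hb⟩ := hs.1 a
          exact ⟨b, by rw [MulAut.mul_apply, ha, hb]⟩
        · obtain ⟨a, ha⟩ := ht.2 k
          obtain ⟨b, hb⟩ := hs.2 a
          exact ⟨b, by rw [MulAut.mul_apply, ha, hb]⟩
      rw [if_pos this, if_pos hs, if_pos ht, one_mul]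
    · have : E1 ι (σ * τ) := by
        refine ⟨fun k => ?_, fun k => ?_⟩
        · obtain ⟨a, ha⟩ := ht.1 k
          obtain ⟨b, hb⟩ := hs.2 a
          exact ⟨b, by rw [MulAut.mul_apply, ha, hb]⟩
        · obtain ⟨a, ha⟩ := ht.2 k
          obtain ⟨b, hb⟩ := hs.1 a
          exact ⟨b, by rw [MulAut.mul_apply, ha, hb]⟩
      rw [if_neg (hn _ this), if_pos hs, if_neg (hn _ ht), one_mul]
    · have : E1 ι (σ * τ) := by
        refine ⟨fun k => ?_, fun k => ?_⟩
        · obtain ⟨a, ha⟩ := ht.1 k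
          obtain ⟨b, hb⟩ := hs.1 a
          exact ⟨b, by rw [MulAut.mul_apply, ha, hb]⟩
        · obtain ⟨a, ha⟩ := ht.2 k
          obtain ⟨b, hb⟩ := hs.2 a
          exact ⟨b, by rw [MulAut.mul_apply, ha, hb]⟩
      rw [if_neg (hn _ this), if_neg (hn _ hs), if_pos ht, mul_one]
    · have : E0 ι (σ * τ) := by
        refine ⟨fun k => ?_, fun k => ?_⟩
        · obtain ⟨a, ha⟩ := ht.1 k
          obtain ⟨b, hb⟩ := hs.2 a
          exact ⟨b, by rw [MulAut.mul_apply, ha, hb]⟩
        · obtain ⟨a, ha⟩ := ht.2 k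
          obtain ⟨b, hb⟩ := hs.1 a
          exact ⟨b, by rw [MulAut.mul_apply, ha, hb]⟩
      rw [if_pos this, if_neg (hn _ hs), if_neg (hn _ ht)]
      simp)

theorem WL.not_integrable (h : WL ι c) (hK : Good K) : ¬ Integrable.{u} G := by
  rintro ⟨H, _, ⟨e⟩⟩
  let ρ : H →* MulAut G :=
    (MulAut.congr e).toMonoidHom.comp (MulAut.conjNormal (H := commutator H))
  have hker := Abelianization.commutator_subset_ker ((h.chi hK).comp ρ)
  have hc : ρ (e.symm c : H) = MulAut.conj c := by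
    ext g
    change e (MulAut.conjNormal ((e.symm c : commutator H) : H) (e.symm g)) = c * g * c⁻¹
    have : MulAut.conjNormal ((e.symm c : commutator H) : H) (e.symm g) =
        e.symm c * e.symm g * (e.symm c)⁻¹ := by
      apply Subtype.ext
      rw [MulAut.conjNormal_apply]
      rfl
    rw [this, map_mul, map_mul, map_inv, MulEquiv.apply_symm_apply, MulEquiv.apply_symm_apply]
  have h1 := hker (e.symm c).2
  rw [MonoidHom.mem_ker, MonoidHom.comp_apply, hc] at h1
  have hE : E1 ι (MulAut.conj c) := by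
    refine ⟨fun k => ⟨k, ?_⟩, fun k => ⟨k, ?_⟩⟩
    · rw [MulAut.conj_apply, h.swap]
    · rw [MulAut.conj_apply, h.swap]
  have h2 : h.chi hK (MulAut.conj c) = -1 := by
    classical
    change (if E0 ι (MulAut.conj c) then (1 : ℤˣ) else -1) = -1
    rw [if_neg fun h0 => h.not_both hK _ h0 hE]
  rw [h2] at h1
  exact absurd h1 (by decide)

end WLs

end Pool.Agent.R571.IG
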