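import Mathlib
import Pool.Agent.R571.IG.A
import Pool.Agent.H926R3.Br.Free

/-!
# Free squares of perfect groups
-/

set_option autoImplicit false

namespace Pool.Agent.R571.IG

open Monoid

theorem coprodI_top {L : Type} [Group L] (S : Subgroup (CoprodI fun _ : Bool => L))
    (h : ∀ (b : Bool) (x : L), CoprodI.of (i := b) x ∈ S) : S = ⊤ := by
  rw [eq_top_iff]
  intro x _
  induction x using CoprodI.induction_on with
  | one => exact one_mem _
  | of i m => exact h i m
  | mul x y hx hy => exact mul_mem (hx (Subgroup.mem_top _)) (hy (Subgroup.mem_top _))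

theorem good_coprodI {L : Type} [Group L] (hn : ∃ x : L, x ≠ 1) (hp : commutator L = ⊤) :
    Good (CoprodI fun _ : Bool => L) := by
  classical
  obtain ⟨x0, hx0⟩ := hn
  have hinj : ∀ b : Bool, Function.Injective (CoprodI.of (M := fun _ : Bool => L) (i := b)) :=
    fun b => CoprodI.of_injective b
  have hmem : ∀ (b : Bool) (x : L), x ≠ 1 → ∀ z : CoprodI (fun _ : Bool => L),
      z * CoprodI.of (i := b) x = CoprodI.of (i := b) x * z → ∃ g : L, z = CoprodI.of (i := b) g := by
    intro b x hx z hz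
    exact Pool.Agent.H926R3.Br.FP.mem_factor_of_commute (G := fun _ : Bool => L) (a := b) x hx z hz
  -- the two factors meet trivially
  have hdis : ∀ x y : L, (CoprodI.of (M := fun _ : Bool => L) (i := false) x) =
      CoprodI.of (i := true) y → x = 1 := by
    intro x y hxy
    let f : CoprodI (fun _ : Bool => L) →* L :=
      CoprodI.lift (fun b => if b then 1 else MonoidHom.id L)
    have h1 := congrArg f hxy
    simpa [f] using h1
  refine ⟨⟨CoprodI.of (i := false) x0, fun h => hx0 ?_⟩, ?_, ?_, ?_⟩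
  · exact (map_eq_one_iff _ (hinj false)).1 h
  · intro z hz
    obtain ⟨x, hx⟩ := hmem false x0 hx0 z (hz _)
    obtain ⟨y, hy⟩ := hmem true x0 hx0 z (hz _)
    have := hdis x y (hx.symm.trans hy)
    rw [hx, this, map_one]
  · intro X Y hXY hgen hint
    -- decompose a generator in each factor
    have key : ∀ b : Bool, ∃ x ∈ X, ∃ y ∈ Y, CoprodI.of (i := b) x0 = x * y ∧
        (∃ g : L, x = CoprodI.of (i := b) g) ∧ (∃ g : L, y = CoprodI.of (i := b) g) := by
      intro b
      obtain ⟨x, hx, y, hy, h⟩ := hgen (CoprodI.of (i := b) x0)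
      refine ⟨x, hx, y, hy, h, hmem b x0 hx0 x ?_, hmem b x0 hx0 y ?_⟩
      · rw [h, mul_assoc, ← hXY x hx y hy]
      · rw [h, ← mul_assoc, ← hXY x hx y hy]
    -- if X contains a nontrivial element of a factor, then Y is in the factor
    have hcen : ∀ (b : Bool) (g : L), g ≠ 1 → CoprodI.of (i := b) g ∈ X →
        ∀ y ∈ Y, ∃ g' : L, y = CoprodI.of (i := b) g' := by
      intro b g hg hgX y hy
      exact hmem b g hg y (hXY _ hgX y hy).symm
    have hcen' : ∀ (b : Bool) (g : L), g ≠ 1 → CoprodI.of (i := b) g ∈ Y →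
        ∀ x ∈ X, ∃ g' : L, x = CoprodI.of (i := b) g' := by
      intro b g hg hgY x hx
      exact hmem b g hg x (hXY x hx _ hgY)
    have hne : ∀ b : Bool, (CoprodI.of (M := fun _ : Bool => L) (i := b) x0) ≠ 1 := fun b h =>
      hx0 ((map_eq_one_iff _ (hinj b)).1 h)
    have hone : ∀ b : Bool, (∃ g : L, g ≠ 1 ∧ CoprodI.of (i := b) g ∈ X) ∨
        (∃ g : L, g ≠ 1 ∧ CoprodI.of (i := b) g ∈ Y) := by
      intro b
      obtain ⟨x, hx, y, hy, h, ⟨g, rfl⟩, ⟨g', rfl⟩⟩ := key b
      by_cases hg : g = 1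
      · right
        refine ⟨g', fun hg' => hne b ?_, hy⟩
        rw [h, hg, hg', map_one, mul_one]
      · exact Or.inl ⟨g, hg, hx⟩
    have two : ∀ z : CoprodI (fun _ : Bool => L), (∃ g : L, z = CoprodI.of (i := false) g) →
        (∃ g : L, z = CoprodI.of (i := true) g) → z = 1 := by
      rintro z ⟨g, rfl⟩ ⟨g', h⟩
      rw [hdis g g' h, map_one]
    rcases hone false with ⟨g, hg, hgX⟩ | ⟨g, hg, hgY⟩ <;>
      rcases hone true with ⟨g', hg', hgX'⟩ | ⟨g', hg', hgY'⟩
    · right
      intro y hy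
      exact two y (hcen _ g hg hgX y hy) (hcen _ g' hg' hgX' y hy)
    · exfalso
      obtain ⟨a, ha⟩ := hcen _ g hg hgX _ hgY'
      exact hg' ((map_eq_one_iff _ (hinj true)).1 (two _ ⟨a, ha⟩ ⟨g', rfl⟩))
    · exfalso
      obtain ⟨a, ha⟩ := hcen _ g' hg' hgX' _ hgY
      exact hg ((map_eq_one_iff _ (hinj false)).1 (two _ ⟨g, rfl⟩ ⟨a, ha⟩))
    · left
      intro x hx
      exact two x (hcen' _ g hg hgY x hx) (hcen' _ g' hg' hgY' x hx)
  · apply coprodI_top
    intro b x
    exact map_comm (CoprodI.of (M := fun _ : Bool => L) (i := b)) hp x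

end Pool.Agent.R571.IG
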