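import Mathlib
import Pool.Agent.R571.IG.B
import Pool.Agent.TH716.C3.Defs

/-!
# Presentations of wreath products
-/

set_option autoImplicit false

namespace Pool.Agent.R571.IG

open Monoid
open Pool.Agent.TH716.C3 (ev)

/-- The relators of the presentation `P`: the elements of the free group on `P.1` generators given
by the words in `P.2` (a letter `(i, true)` is the `i`-th generator, `(i, false)` its inverse). -/
def rels (P : ℕ × List (List (ℕ × Bool))) : Set (FreeGroup (Fin P.1)) :=
  {x | ∃ r ∈ P.2, FreeGroup.map Fin.val x = FreeGroup.mk r}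

/-- The group presented by `P`. -/
abbrev Grp (P : ℕ × List (List (ℕ × Bool))) : Type := PresentedGroup (rels P)

/-- All letters in the words are generators. -/
def Valid (P : ℕ × List (List (ℕ × Bool))) : Prop := ∀ r ∈ P.2, ∀ x ∈ r, x.1 < P.1

/-- The generators. -/
def gen (P : ℕ × List (List (ℕ × Bool))) (i : ℕ) : Grp P :=
  if h : i < P.1 then PresentedGroup.of ⟨i, h⟩ else 1

theorem ev_eq {G : Type} [Group G] (γ : ℕ → G) (r : List (ℕ × Bool)) :
    ev γ r = FreeGroup.lift γ (FreeGroup.mk r) := by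
  rw [FreeGroup.lift_mk]
  unfold ev
  congr 1
  apply List.map_congr_left
  intro x _
  cases x.2 <;> rfl

theorem map_ev {G G' : Type} [Group G] [Group G'] (f : G →* G') (γ : ℕ → G)
    (r : List (ℕ × Bool)) : f (ev γ r) = ev (fun i => f (γ i)) r := by
  rw [ev_eq, ev_eq]
  have : (f.comp (FreeGroup.lift γ)) = FreeGroup.lift (fun i => f (γ i)) := by
    ext i
    simp
  rw [← this]
  rfl

theorem ev_gen {P : ℕ × List (List (ℕ × Bool))} (hP : Valid P) (r : List (ℕ × Bool))
    (hr : r ∈ P.2) : ev (gen P) r = 1 := by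
  obtain ⟨r', hr'⟩ : ∃ r' : List (Fin P.1 × Bool), r'.map (fun x => (x.1.val, x.2)) = r := by
    refine ⟨r.pmap (fun x h => ((⟨x.1, h⟩ : Fin P.1), x.2)) (hP r hr), ?_⟩
    rw [List.map_pmap]
    simp
  have h1 : (FreeGroup.mk r' : FreeGroup (Fin P.1)) ∈ rels P := by
    refine ⟨r, hr, ?_⟩
    rw [FreeGroup.map.mk, hr']
  have h2 : PresentedGroup.mk (rels P) (FreeGroup.mk r') = 1 :=
    PresentedGroup.one_of_mem h1
  rw [← h2, ev_eq, ← hr', ← FreeGroup.map.mk (f := (Fin.val : Fin P.1 → ℕ))]
  have : (FreeGroup.lift (gen P)).comp (FreeGroup.map (Fin.val : Fin P.1 → ℕ)) =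
      PresentedGroup.mk (rels P) := by
    ext i
    simp [gen, PresentedGroup.of]
  rw [← this]
  rfl

/-- homomorphisms from a presented group -/
def lft {G : Type} [Group G] (P : ℕ × List (List (ℕ × Bool))) (γ : ℕ → G)
    (h : ∀ r ∈ P.2, ev γ r = 1) : Grp P →* G :=
  PresentedGroup.toGroup (f := fun i : Fin P.1 => γ i) (by
    rintro x ⟨r, hr, hx⟩
    have h1 : FreeGroup.lift (fun i : Fin P.1 => γ i) x =
        FreeGroup.lift γ (FreeGroup.map Fin.val x) := by
      have : FreeGroup.lift (fun i : Fin P.1 => γ i) =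
          (FreeGroup.lift γ).comp (FreeGroup.map Fin.val) := by
        ext i
        simp
      rw [this]
      rfl
    rw [h1, hx, ← ev_eq, h r hr])

theorem lft_gen {G : Type} [Group G] (P : ℕ × List (List (ℕ × Bool))) (γ : ℕ → G)
    (h : ∀ r ∈ P.2, ev γ r = 1) (i : ℕ) (hi : i < P.1) : lft P γ h (gen P i) = γ i := by
  unfold gen lft
  rw [dif_pos hi]
  exact PresentedGroup.toGroup.of _

theorem gen_top {P : ℕ × List (List (ℕ × Bool))} (S : Subgroup (Grp P))
    (h : ∀ i < P.1, gen P i ∈ S) : S = ⊤ := by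
  rw [eq_top_iff, ← PresentedGroup.closure_range_of (rels P), Subgroup.closure_le]
  rintro x ⟨y, rfl⟩
  have := h y.1 y.2
  unfold gen at this
  rw [dif_pos y.2] at this
  exact this

theorem hom_ext {G : Type} [Group G] {P : ℕ × List (List (ℕ × Bool))} (f g : Grp P →* G)
    (h : ∀ i < P.1, f (gen P i) = g (gen P i)) : f = g := by
  have := gen_top (P := P) (MonoidHom.eqLocus f g) h
  refine MonoidHom.ext fun x => ?_
  have hx : x ∈ MonoidHom.eqLocus f g := by rw [this]; exact Subgroup.mem_top _
  exact hx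

/-! ### the presentation of the wreath product -/

/-- shift of the generators by N -/
def sh (N : ℕ) (r : List (ℕ × Bool)) : List (ℕ × Bool) := r.map fun x => (x.1 + N, x.2)

/-- the commutator of the generator `i` and the conjugate of the generator `j` by the last one -/
def cw (N i j : ℕ) : List (ℕ × Bool) :=
  [(i, true), (2 * N, true), (j, true), (2 * N, false), (i, false), (2 * N, true), (j, false),
    (2 * N, false)]

/-- the constant relators -/
def cst (N : ℕ) : List (List (ℕ × Bool)) :=
  [(2 * N, true), (2 * N, true)] ::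
    (List.range (2 * N)).flatMap fun i => (List.range (2 * N)).map fun j => cw N i j

/-- the presentation of the wreath product of the free square of the group presented by `(N, R)`
and a group of order two -/
def PG (N : ℕ) (R : List (List (ℕ × Bool))) : ℕ × List (List (ℕ × Bool)) :=
  (2 * N + 1, R ++ (R.map (sh N) ++ cst N))

theorem ev_sh {G : Type} [Group G] (γ : ℕ → G) (N : ℕ) (r : List (ℕ × Bool)) :
    ev γ (sh N r) = ev (fun i => γ (i + N)) r := by
  unfold ev sh
  rw [List.map_map]
  rfl

theorem ev_cw {G : Type} [Group G] (γ : ℕ → G) (N i j : ℕ) :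
    ev γ (cw N i j) = γ i * (γ (2 * N) * γ j * (γ (2 * N))⁻¹) * (γ i)⁻¹ *
      (γ (2 * N) * γ j * (γ (2 * N))⁻¹)⁻¹ := by
  simp [ev, cw, mul_assoc]

theorem ev_cw_iff {G : Type} [Group G] (γ : ℕ → G) (N i j : ℕ) :
    ev γ (cw N i j) = 1 ↔ Commute (γ i) (γ (2 * N) * γ j * (γ (2 * N))⁻¹) := by
  rw [ev_cw, mul_inv_eq_one, mul_inv_eq_iff_eq_mul]
  rfl

theorem mem_cst {N : ℕ} {r : List (ℕ × Bool)} : r ∈ cst N ↔
    r = [(2 * N, true), (2 * N, true)] ∨ ∃ i < 2 * N, ∃ j < 2 * N, r = cw N i j := by
  unfold cst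
  simp only [List.mem_cons, List.mem_flatMap, List.mem_range, List.mem_map]
  constructor
  · rintro (h | ⟨i, hi, j, hj, rfl⟩)
    · exact Or.inl h
    · exact Or.inr ⟨i, hi, j, hj, rfl⟩
  · rintro (h | ⟨i, hi, j, hj, rfl⟩)
    · exact Or.inl h
    · exact Or.inr ⟨i, hi, j, hj, rfl⟩

theorem mem_PG {N : ℕ} {R : List (List (ℕ × Bool))} {r : List (ℕ × Bool)} :
    r ∈ (PG N R).2 ↔ r ∈ R ∨ (∃ r' ∈ R, r = sh N r') ∨ r = [(2 * N, true), (2 * N, true)] ∨
      ∃ i < 2 * N, ∃ j < 2 * N, r = cw N i j := by
  unfold PG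
  simp only [List.mem_append, List.mem_map, mem_cst]
  constructor
  · rintro (h | ⟨r', hr', rfl⟩ | h)
    · exact Or.inl h
    · exact Or.inr (Or.inl ⟨r', hr', rfl⟩)
    · exact Or.inr (Or.inr h)
  · rintro (h | ⟨r', hr', rfl⟩ | h)
    · exact Or.inl h
    · exact Or.inr (Or.inl ⟨r', hr', rfl⟩)
    · exact Or.inr (Or.inr h)

theorem valid_PG {N : ℕ} {R : List (List (ℕ × Bool))} (hR : Valid (N, R)) : Valid (PG N R) := by
  intro r hr x hx
  rw [mem_PG] at hr
  change x.1 < 2 * N + 1
  rcases hr with h | ⟨r', hr', rfl⟩ | rfl | ⟨i, hi, j, hj, rfl⟩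
  · have := hR r h x hx
    change x.1 < N at this
    omega
  · unfold sh at hx
    rw [List.mem_map] at hx
    obtain ⟨y, hy, rfl⟩ := hx
    have := hR r' hr' y hy
    change y.1 < N at this
    dsimp only
    omega
  · simp at hx
    subst hx
    dsimp only
    omega
  · simp only [cw, List.mem_cons, List.not_mem_nil, or_false] at hx
    rcases hx with rfl | rfl | rfl | rfl | rfl | rfl | rfl | rfl <;> dsimp only <;> omega

section

variable {N : ℕ} {R : List (List (ℕ × Bool))}

/-- the last generator -/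
abbrev cc (N : ℕ) (R : List (List (ℕ × Bool))) : Grp (PG N R) := gen (PG N R) (2 * N)

theorem cc_sq (hR : Valid (N, R)) : cc N R * cc N R = 1 := by
  have h := ev_gen (valid_PG hR) [(2 * N, true), (2 * N, true)]
    (mem_PG.2 (Or.inr (Or.inr (Or.inl rfl))))
  simpa [ev] using h

theorem cc_inv (hR : Valid (N, R)) : (cc N R)⁻¹ = cc N R :=
  inv_eq_of_mul_eq_one_right (cc_sq hR)

theorem cc_comm (hR : Valid (N, R)) (i j : ℕ) (hi : i < 2 * N) (hj : j < 2 * N) :
    Commute (gen (PG N R) i) (cc N R * gen (PG N R) j * (cc N R)⁻¹) := by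
  rw [← ev_cw_iff]
  exact ev_gen (valid_PG hR) _ (mem_PG.2 (Or.inr (Or.inr (Or.inr ⟨i, hi, j, hj, rfl⟩))))

/-- the index of the generators of the copies -/
def off (N : ℕ) (b : Bool) : ℕ := if b then N else 0

theorem rel_copy (hR : Valid (N, R)) (b : Bool) (r : List (ℕ × Bool)) (hr : r ∈ R) :
    ev (fun i => gen (PG N R) (i + off N b)) r = 1 := by
  cases b
  · exact ev_gen (valid_PG hR) r (mem_PG.2 (Or.inl hr))
  · have h := ev_gen (valid_PG hR) (sh N r) (mem_PG.2 (Or.inr (Or.inl ⟨r, hr, rfl⟩)))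
    rw [ev_sh] at h
    exact h

/-- the copies of the group presented by `(N, R)` -/
def cpy (hR : Valid (N, R)) (b : Bool) : Grp (N, R) →* Grp (PG N R) :=
  lft (N, R) (fun i => gen (PG N R) (i + off N b)) (fun r hr => rel_copy hR b r hr)

theorem cpy_gen (hR : Valid (N, R)) (b : Bool) (i : ℕ) (hi : i < N) :
    cpy hR b (gen (N, R) i) = gen (PG N R) (i + off N b) := lft_gen _ _ _ i hi

/-- the free square -/
abbrev KK (N : ℕ) (R : List (List (ℕ × Bool))) : Type := CoprodI fun _ : Bool => Grp (N, R)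

/-- the free square in the wreath product -/
def al (hR : Valid (N, R)) : KK N R →* Grp (PG N R) := CoprodI.lift (cpy hR)

theorem al_of (hR : Valid (N, R)) (b : Bool) (x : Grp (N, R)) :
    al hR (CoprodI.of (i := b) x) = cpy hR b x := by
  unfold al
  exact CoprodI.lift_of _ _

/-- the subgroup generated by the first `2 N` generators -/
def BB (N : ℕ) (R : List (List (ℕ × Bool))) : Subgroup (Grp (PG N R)) :=
  Subgroup.closure {x | ∃ i < 2 * N, x = gen (PG N R) i}

theorem al_mem (hR : Valid (N, R)) (x : KK N R) : al hR x ∈ BB N R := by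
  have h1 : (BB N R).comap (al hR) = ⊤ := by
    apply coprodI_top
    intro b x
    rw [Subgroup.mem_comap, al_of]
    have h2 : (BB N R).comap (cpy hR b) = ⊤ := by
      apply gen_top
      intro i hi
      rw [Subgroup.mem_comap, cpy_gen hR b i hi]
      apply Subgroup.subset_closure
      refine ⟨_, ?_, rfl⟩
      change i < N at hi
      unfold off
      split_ifs <;> omega
    have h3 : x ∈ (BB N R).comap (cpy hR b) := by rw [h2]; exact Subgroup.mem_top _
    exact h3
  have h2 : x ∈ (BB N R).comap (al hR) := by rw [h1]; exact Subgroup.mem_top _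
  exact h2

theorem BB_comm (hR : Valid (N, R)) {x y : Grp (PG N R)} (hx : x ∈ BB N R) (hy : y ∈ BB N R) :
    Commute x (cc N R * y * (cc N R)⁻¹) := by
  unfold BB at hx hy
  induction hx using Subgroup.closure_induction with
  | mem x hx =>
    obtain ⟨i, hi, rfl⟩ := hx
    induction hy using Subgroup.closure_induction with
    | mem y hy =>
      obtain ⟨j, hj, rfl⟩ := hy
      exact cc_comm hR i j hi hj
    | one => simp
    | mul y z _ _ hy hz =>
      have : cc N R * (y * z) * (cc N R)⁻¹ =
        (cc N R * y * (cc N R)⁻¹) * (cc N R * z * (cc N R)⁻¹) := by group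
      rw [this]
      exact hy.mul_right hz
    | inv y _ hy =>
      have : cc N R * y⁻¹ * (cc N R)⁻¹ = (cc N R * y * (cc N R)⁻¹)⁻¹ := by group
      rw [this]
      exact hy.inv_right
  | one => exact Commute.one_left _
  | mul x z _ _ hx hz => exact hx.mul_left hz
  | inv x _ hx => exact hx.inv_left

/-- the second factor -/
def be (hR : Valid (N, R)) : KK N R →* Grp (PG N R) :=
  (MulAut.conj (cc N R)).toMonoidHom.comp (al hR)

theorem be_apply (hR : Valid (N, R)) (x : KK N R) :
    be hR x = cc N R * al hR x * (cc N R)⁻¹ := rfl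

/-- the base of the wreath product -/
def io (hR : Valid (N, R)) : KK N R × KK N R →* Grp (PG N R) :=
  MonoidHom.noncommCoprod (al hR) (be hR)
    (fun x y => BB_comm hR (al_mem hR x) (al_mem hR y))

theorem io_apply (hR : Valid (N, R)) (x y : KK N R) :
    io hR (x, y) = al hR x * (cc N R * al hR y * (cc N R)⁻¹) := rfl

theorem io_swap (hR : Valid (N, R)) (x y : KK N R) :
    cc N R * io hR (x, y) * (cc N R)⁻¹ = io hR (y, x) := by
  have hc := BB_comm hR (al_mem hR y) (al_mem hR x)
  rw [io_apply, io_apply, hc.eq]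
  have e := cc_sq hR
  have : cc N R * (al hR x * (cc N R * al hR y * (cc N R)⁻¹)) * (cc N R)⁻¹ =
      cc N R * al hR x * (cc N R)⁻¹ * ((cc N R * cc N R) * al hR y * (cc N R * cc N R)⁻¹) := by
    group
  rw [this, e]
  group

theorem io_cover (hR : Valid (N, R)) (g : Grp (PG N R)) :
    ∃ x, g = io hR x ∨ g = io hR x * cc N R := by
  have hsw : ∀ x : KK N R × KK N R, cc N R * io hR x = io hR (x.2, x.1) * cc N R := by
    intro x
    rw [← io_swap hR x.1 x.2]
    group
  let S : Subgroup (Grp (PG N R)) :=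
    { carrier := {g | ∃ x, g = io hR x ∨ g = io hR x * cc N R}
      one_mem' := ⟨1, Or.inl (map_one _).symm⟩
      mul_mem' := by
        rintro a b ⟨x, rfl | rfl⟩ ⟨y, rfl | rfl⟩
        · exact ⟨x * y, Or.inl (map_mul _ _ _).symm⟩
        · refine ⟨x * y, Or.inr ?_⟩
          rw [map_mul, mul_assoc]
        · refine ⟨x * (y.2, y.1), Or.inr ?_⟩
          rw [map_mul, mul_assoc, hsw, mul_assoc]
        · refine ⟨x * (y.2, y.1), Or.inl ?_⟩
          rw [map_mul, mul_assoc, ← mul_assoc (cc N R), hsw, mul_assoc (io hR (y.2, y.1)),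
            cc_sq hR, mul_one]
      inv_mem' := by
        rintro a ⟨x, rfl | rfl⟩
        · exact ⟨x⁻¹, Or.inl (map_inv _ _).symm⟩
        · refine ⟨((x⁻¹).2, (x⁻¹).1), Or.inr ?_⟩
          rw [mul_inv_rev, cc_inv hR, ← map_inv, hsw] }
  have hS : S = ⊤ := by
    apply gen_top
    intro i hi
    change i < 2 * N + 1 at hi
    by_cases h1 : i < N
    · refine ⟨(CoprodI.of (i := false) (gen (N, R) i), 1), Or.inl ?_⟩
      rw [io_apply, al_of, cpy_gen hR false i h1, map_one]
      simp [off]
    · by_cases h2 : i < 2 * N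
      · refine ⟨(CoprodI.of (i := true) (gen (N, R) (i - N)), 1), Or.inl ?_⟩
        rw [io_apply, al_of, cpy_gen hR true (i - N) (by omega), map_one]
        have : i - N + off N true = i := by
          unfold off
          rw [if_pos rfl]
          omega
        rw [this]
        simp
      · have : i = 2 * N := by omega
        subst this
        exact ⟨1, Or.inr (by rw [map_one, one_mul])⟩
  have : g ∈ S := by rw [hS]; exact Subgroup.mem_top _
  exact this

/-! ### the model -/

/-- the holomorph of the square of the free square -/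
abbrev QQ (N : ℕ) (R : List (List (ℕ × Bool))) : Type :=
  SemidirectProduct (KK N R × KK N R) (MulAut (KK N R × KK N R)) (MonoidHom.id _)

/-- the swap of the factors -/
def sw2 (N : ℕ) (R : List (List (ℕ × Bool))) : MulAut (KK N R × KK N R) := MulEquiv.prodComm

/-- the images of the generators -/
def gm (N : ℕ) (R : List (List (ℕ × Bool))) (i : ℕ) : QQ N R :=
  if i < N then SemidirectProduct.inl (CoprodI.of (i := false) (gen (N, R) i), 1) else
    if i < 2 * N then SemidirectProduct.inl (CoprodI.of (i := true) (gen (N, R) (i - N)), 1) else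
      SemidirectProduct.inr (sw2 N R)

theorem ev_congr {G : Type} [Group G] (γ δ : ℕ → G) (N : ℕ) (h : ∀ x < N, γ x = δ x)
    (r : List (ℕ × Bool)) (hr : ∀ x ∈ r, x.1 < N) : ev γ r = ev δ r := by
  unfold ev
  congr 1
  apply List.map_congr_left
  intro x hx
  rw [h _ (hr x hx)]

/-- the inclusion of a copy of the group in the model -/
def inc (N : ℕ) (R : List (List (ℕ × Bool))) (b : Bool) : Grp (N, R) →* QQ N R :=
  SemidirectProduct.inl.comp ((MonoidHom.inl _ _).comp
    (CoprodI.of (M := fun _ : Bool => Grp (N, R)) (i := b)))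

theorem gm_lt (i : ℕ) (hi : i < 2 * N) : ∃ x : KK N R, gm N R i = SemidirectProduct.inl (x, 1) := by
  unfold gm
  split_ifs with h1
  · exact ⟨_, rfl⟩
  · exact ⟨_, rfl⟩

theorem gm_last : gm N R (2 * N) = SemidirectProduct.inr (sw2 N R) := by
  unfold gm
  rw [if_neg (by omega), if_neg (by omega)]

theorem model_rel (hR : Valid (N, R)) (r : List (ℕ × Bool)) (hr : r ∈ (PG N R).2) :
    ev (gm N R) r = 1 := by
  rw [mem_PG] at hr
  rcases hr with h | ⟨r', hr', rfl⟩ | rfl | ⟨i, hi, j, hj, rfl⟩
  · rw [ev_congr (gm N R) (fun i => inc N R false (gen (N, R) i)) N ?_ r (hR r h), ← map_ev,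
      ev_gen hR r h, map_one]
    intro x hx
    unfold gm
    rw [if_pos hx]
    rfl
  · rw [ev_sh, ev_congr _ (fun i => inc N R true (gen (N, R) i)) N ?_ r' (hR r' hr'), ← map_ev,
      ev_gen hR r' hr', map_one]
    intro x hx
    unfold gm
    rw [if_neg (by omega), if_pos (by omega), Nat.add_sub_cancel]
    rfl
  · simp only [ev, List.map_cons, List.map_nil, List.prod_cons, List.prod_nil, if_true, mul_one]
    rw [gm_last, ← map_mul]
    have : sw2 N R * sw2 N R = 1 := by
      ext x <;> rfl
    rw [this, map_one]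
  · rw [ev_cw_iff, gm_last]
    obtain ⟨x, hx⟩ := gm_lt (N := N) (R := R) i hi
    obtain ⟨y, hy⟩ := gm_lt (N := N) (R := R) j hj
    rw [hx, hy]
    have h1 : (SemidirectProduct.inr (sw2 N R) * SemidirectProduct.inl (y, 1) *
        (SemidirectProduct.inr (sw2 N R))⁻¹ : QQ N R) = SemidirectProduct.inl (1, y) := by
      rw [← map_inv, ← SemidirectProduct.inl_aut]
      rfl
    rw [h1]
    change _ * _ = _ * _
    rw [← map_mul, ← map_mul]
    congr 1
    apply Prod.ext <;> simp

/-- the map to the model -/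
def mdl (hR : Valid (N, R)) : Grp (PG N R) →* QQ N R :=
  lft (PG N R) (gm N R) (model_rel hR)

theorem mdl_gen (hR : Valid (N, R)) (i : ℕ) (hi : i < 2 * N + 1) :
    mdl hR (gen (PG N R) i) = gm N R i := lft_gen _ _ _ i hi

theorem mdl_al (hR : Valid (N, R)) (x : KK N R) :
    mdl hR (al hR x) = SemidirectProduct.inl (x, 1) := by
  have h1 : (mdl hR).comp (al hR) = SemidirectProduct.inl.comp (MonoidHom.inl _ _) := by
    apply CoprodI.ext_hom
    intro b
    apply hom_ext
    intro i hi
    change mdl hR (al hR (CoprodI.of (i := b) (gen (N, R) i))) =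
      SemidirectProduct.inl (CoprodI.of (i := b) (gen (N, R) i), 1)
    change i < N at hi
    rw [al_of, cpy_gen hR b i hi]
    cases b
    · change mdl hR (gen (PG N R) i) = _
      rw [mdl_gen hR i (by omega)]
      unfold gm
      rw [if_pos hi]
    · change mdl hR (gen (PG N R) (i + N)) = _
      rw [mdl_gen hR _ (by omega)]
      unfold gm
      rw [if_neg (by omega), if_pos (by omega), Nat.add_sub_cancel]
  exact DFunLike.congr_fun h1 x

theorem mdl_cc (hR : Valid (N, R)) : mdl hR (cc N R) = SemidirectProduct.inr (sw2 N R) := by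
  rw [mdl_gen hR _ (by omega), gm_last]

theorem mdl_io (hR : Valid (N, R)) (x : KK N R × KK N R) :
    mdl hR (io hR x) = SemidirectProduct.inl x := by
  obtain ⟨a, b⟩ := x
  rw [io_apply, map_mul, map_mul, map_mul, map_inv, mdl_al, mdl_al, mdl_cc, ← map_inv,
    ← SemidirectProduct.inl_aut]
  change SemidirectProduct.inl (a, 1) * SemidirectProduct.inl (1, b) = _
  rw [← map_mul]
  simp

theorem wl (hR : Valid (N, R)) : WL (io hR) (cc N R) where
  inj := by
    intro x y h
    have := congrArg (mdl hR) h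
    rw [mdl_io, mdl_io] at this
    exact SemidirectProduct.inl_injective this
  swap := io_swap hR
  cover := io_cover hR

end

end Pool.Agent.R571.IG
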