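import Mathlib
import Pool.Agent.R571.IG.C
import Pool.Agent.TH716.C3.Main
import Pool.Agent.TH111.J524

/-!
# Integrability of finitely presented groups is undecidable
-/

set_option autoImplicit false

namespace Pool.Agent.R571.IG

universe u v

open Monoid commutatorElement
open Pool.Agent.TH716.C3 (ev rl gN rsn)

/-! ### integrable groups -/

theorem integrable_lift {G : Type v} [Group G] (h : Integrable.{0} G) : Integrable.{u} G := by
  obtain ⟨H, _, ⟨e⟩⟩ := h
  refine ⟨ULift.{u} H, inferInstance, ⟨?_⟩⟩
  have h1 : (commutator (ULift.{u} H)).map (MulEquiv.ulift : ULift.{u} H ≃* H).toMonoidHom =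
      commutator H := by
    rw [commutator_def, Subgroup.map_commutator, commutator_def,
      Subgroup.map_top_of_surjective _ (MulEquiv.ulift : ULift.{u} H ≃* H).surjective]
  exact (((MulEquiv.ulift : ULift.{u} H ≃* H).subgroupMap (commutator (ULift.{u} H))).trans
    (MulEquiv.subgroupCongr h1)).trans e

theorem comm_dihedral : commutator (DihedralGroup 4) =
    Subgroup.zpowers (DihedralGroup.r 2 : DihedralGroup 4) := by
  apply le_antisymm
  · rw [commutator_def, Subgroup.commutator_le]
    intro g1 _ g2 _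
    have h : ∀ g1 g2 : DihedralGroup 4, ⁅g1, g2⁆ = 1 ∨ ⁅g1, g2⁆ = DihedralGroup.r 2 := by decide
    rcases h g1 g2 with h | h
    · rw [h]; exact one_mem _
    · rw [h]; exact Subgroup.mem_zpowers _
  · rw [Subgroup.zpowers_le]
    have : (DihedralGroup.r 2 : DihedralGroup 4) =
        ⁅(DihedralGroup.r 1 : DihedralGroup 4), (DihedralGroup.sr 0 : DihedralGroup 4)⁆ := by
      decide
    rw [this]
    exact Subgroup.commutator_mem_commutator (Subgroup.mem_top _) (Subgroup.mem_top _)

theorem integrable_two {G : Type v} [Group G] (hG : Nat.card G = 2) : Integrable.{0} G := by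
  refine ⟨DihedralGroup 4, inferInstance, ⟨mulEquivOfPrimeCardEq (p := 2) ?_ hG⟩⟩
  rw [comm_dihedral, Nat.card_zpowers]
  exact orderOf_eq_prime (by decide) (by decide)

theorem integrable_of_gen {G : Type v} [Group G] (c : G) (h : ∀ g, g = 1 ∨ g = c) :
    Integrable.{u} G := by
  apply integrable_lift
  by_cases hc : c = 1
  · have : Subsingleton G := ⟨fun a b => by
      have ha : a = 1 := by rcases h a with h | h <;> simp [h, hc]
      have hb : b = 1 := by rcases h b with h | h <;> simp [h, hc]
      rw [ha, hb]⟩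
    have : Unique G := ⟨⟨1⟩, fun a => Subsingleton.elim _ _⟩
    have : Unique (commutator Unit) := ⟨⟨1⟩, fun a => Subsingleton.elim _ _⟩
    exact ⟨Unit, inferInstance, ⟨MulEquiv.ofUnique⟩⟩
  · apply integrable_two
    rw [Nat.card_eq_two_iff]
    refine ⟨1, c, fun h => hc h.symm, ?_⟩
    ext g
    simpa using h g

/-! ### the presentations -/

/-- the presentation of a perfect group which is trivial if and only if `w` is trivial -/
def RL {m : ℕ} (R : List (List (Fin m × Bool))) (w : List (Fin m × Bool)) :
    List (List (ℕ × Bool)) :=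
  (List.range (2 * m + 6)).map (rl (gN m)) ++ rsn R w

variable {m : ℕ} {R : List (List (Fin m × Bool))} {w : List (Fin m × Bool)}

theorem mem_RL {r : List (ℕ × Bool)} :
    r ∈ RL R w ↔ (∃ h < 2 * m + 6, rl (gN m) h = r) ∨ r ∈ rsn R w := by
  simp [RL]

theorem valid_RL : Valid (2 * m + 6, RL R w) := by
  intro r hr x hx
  change x.1 < 2 * m + 6
  change r ∈ RL R w at hr
  rw [mem_RL] at hr
  rcases hr with ⟨h, hh, rfl⟩ | hr
  · have := Pool.Agent.TH716.C3.gN_lt m h hh
    simp only [rl, List.mem_cons, List.not_mem_nil, or_false] at hx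
    rcases hx with rfl | rfl | rfl | rfl | rfl <;> dsimp only <;> omega
  · exact (Pool.Agent.TH716.C3.rsn_lt R w r hr).2 x hx

theorem perfect_RL : commutator (Grp (2 * m + 6, RL R w)) = ⊤ := by
  apply gen_top
  intro i hi
  change i < 2 * m + 6 at hi
  rw [← Abelianization.ker_of, MonoidHom.mem_ker]
  have h1 := ev_gen (valid_RL (R := R) (w := w)) (rl (gN m) i) (mem_RL.2 (Or.inl ⟨i, hi, rfl⟩))
  have h2 := congrArg Abelianization.of h1
  rw [map_ev, map_one] at h2
  exact Pool.Agent.TH716.C3.ab_aux (fun a b => mul_comm a b) _ _ h2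

theorem yes (hw : FreeGroup.mk w ∈ Subgroup.normalClosure {x | ∃ r ∈ R, x = FreeGroup.mk r}) :
    Integrable.{u} (Grp (PG (2 * m + 6) (RL R w))) := by
  have h1 : ∀ b : Bool, ∀ i < 2 * m + 6,
      gen (PG (2 * m + 6) (RL R w)) (i + off (2 * m + 6) b) = 1 := by
    intro b
    have hrel := rel_copy (valid_RL (R := R) (w := w)) b
    refine Pool.Agent.TH111.J524.result.1 m R w hw _
      (fun i => gen (PG (2 * m + 6) (RL R w)) (i + off (2 * m + 6) b)) ?_ ?_
    · intro h hh
      exact hrel _ (mem_RL.2 (Or.inl ⟨h, hh, rfl⟩))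
    · intro r hr h _
      rw [hrel _ (mem_RL.2 (Or.inr hr))]
      exact Commute.one_left _
  refine integrable_of_gen (cc (2 * m + 6) (RL R w)) ?_
  let S : Subgroup (Grp (PG (2 * m + 6) (RL R w))) :=
    { carrier := {g | g = 1 ∨ g = cc (2 * m + 6) (RL R w)}
      one_mem' := Or.inl rfl
      mul_mem' := by
        rintro a b (rfl | rfl) (rfl | rfl)
        · exact Or.inl (one_mul _)
        · exact Or.inr (one_mul _)
        · exact Or.inr (mul_one _)
        · exact Or.inl (cc_sq valid_RL)
      inv_mem' := by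
        rintro a (rfl | rfl)
        · exact Or.inl inv_one
        · exact Or.inr (cc_inv valid_RL) }
  have hS : S = ⊤ := by
    apply gen_top
    intro i hi
    change i < 2 * (2 * m + 6) + 1 at hi
    by_cases h2 : i < 2 * m + 6
    · exact Or.inl (h1 false i h2)
    · by_cases h3 : i < 2 * (2 * m + 6)
      · left
        have := h1 true (i - (2 * m + 6)) (by omega)
        have e : i - (2 * m + 6) + off (2 * m + 6) true = i := by
          unfold off
          rw [if_pos rfl]
          omega
        rwa [e] at this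
      · right
        have : i = 2 * (2 * m + 6) := by omega
        rw [this]
  intro g
  have : g ∈ S := by rw [hS]; exact Subgroup.mem_top _
  exact this

theorem no (hw : FreeGroup.mk w ∉ Subgroup.normalClosure {x | ∃ r ∈ R, x = FreeGroup.mk r}) :
    ¬ Integrable.{u} (Grp (PG (2 * m + 6) (RL R w))) := by
  obtain ⟨G, _, γ, h1, h2, h3⟩ := Pool.Agent.TH111.J524.result.2 m R w hw
  have hr : ∀ r ∈ (2 * m + 6, RL R w).2, ev γ r = 1 := by
    intro r hr
    change r ∈ RL R w at hr
    rw [mem_RL] at hr
    rcases hr with ⟨h, hh, rfl⟩ | hr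
    · exact h1 h hh
    · exact h2 r hr
  have hne : gen (2 * m + 6, RL R w) 0 ≠ 1 := by
    intro h0
    have := lft_gen (2 * m + 6, RL R w) γ hr 0 (by change 0 < 2 * m + 6; omega)
    rw [h0, map_one] at this
    exact h3 this.symm
  exact (wl (valid_RL (R := R) (w := w))).not_integrable
    (good_coprodI ⟨_, hne⟩ perfect_RL)

/-! ### computability -/

theorem primrec_sh (N : ℕ) : Primrec (sh N) := by
  unfold sh
  refine Primrec.list_map Primrec.id ?_
  exact Primrec.pair (Primrec.nat_add.comp (Primrec.fst.comp Primrec.snd) (Primrec.const N))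
    (Primrec.snd.comp Primrec.snd)

theorem primrec_RL (R : List (List (Fin m × Bool))) : Primrec (RL R) := by
  unfold RL
  exact Primrec.list_append.comp (Primrec.const _) (Pool.Agent.TH716.C3.primrec_rsn R)

theorem primrec_PG (R : List (List (Fin m × Bool))) :
    Primrec fun w => PG (2 * m + 6) (RL R w) := by
  unfold PG
  refine Primrec.pair (Primrec.const _) ?_
  refine Primrec.list_append.comp (primrec_RL R) (Primrec.list_append.comp ?_ (Primrec.const _))
  exact Primrec.list_map (primrec_RL R) ((primrec_sh _).comp Primrec.snd)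

theorem main : ¬ ∃ f : ℕ × List (List (ℕ × Bool)) → Bool, Computable f ∧ ∀ P, Valid P →
    (f P = true ↔ Integrable.{u} (Grp P)) := by
  obtain ⟨m, R, W, hW, hund⟩ := Pool.Agent.Helper270.WP.word_problem
  rintro ⟨f, hf, hcon⟩
  apply hund
  set Rl : List (List (Fin m × Bool)) := R.toList.map FreeGroup.toWord with hRl
  have hR : {x | ∃ r ∈ Rl, x = FreeGroup.mk r} = (R : Set (FreeGroup (Fin m))) := by
    ext x
    constructor
    · rintro ⟨r, hr, rfl⟩
      rw [hRl, List.mem_map] at hr
      obtain ⟨y, hy, rfl⟩ := hr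
      rw [FreeGroup.mk_toWord]
      exact Finset.mem_toList.1 hy
    · intro hx
      exact ⟨x.toWord, List.mem_map.2 ⟨x, Finset.mem_toList.2 hx, rfl⟩, FreeGroup.mk_toWord.symm⟩
  have hρ : Computable fun n => PG (2 * m + 6) (RL Rl (W n)) :=
    (primrec_PG Rl).to_comp.comp hW
  have key : ∀ n, (FreeGroup.mk (W n) ∈ Subgroup.normalClosure (R : Set (FreeGroup (Fin m)))) ↔
      f (PG (2 * m + 6) (RL Rl (W n))) = true := by
    intro n
    rw [hcon _ (valid_PG valid_RL)]
    constructor
    · intro h
      exact yes (by rw [hR]; exact h)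
    · intro h
      by_contra hn
      exact no (by rw [hR]; exact hn) h
  exact ComputablePred.computable_iff.2 ⟨_, hf.comp hρ, funext fun n => propext (key n)⟩

end Pool.Agent.R571.IG
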